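import Pool.Agent.Helper70_RES.Stmts
import Pool.Agent.Helper54_QE.Rank
import Pool.Agent.Helper54_QE.Meas
import Pool.Agent.Helper36_QE.Trace
import Pool.Agent.Helper68_QE.Resample

/-!
# STA: the resonance bound
-/

set_option autoImplicit false

open scoped InnerProductSpace ComplexConjugate Topology ENNReal
open MeasureTheory Filter

noncomputable section

namespace Pool.Agent.RES.H31

open Pool.Agent.Anderson Pool.Agent.Helper54.Bal Pool.Agent.QE Pool.Agent.RES

variable {d : ℕ}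

theorem en_pos (n : ℕ) : 0 < en n := by
  unfold en
  positivity

theorem coord_le (f : L2 d) (x : Site d) : ‖f x‖ ≤ ‖f‖ :=
  lp.norm_apply_le_norm (by norm_num) f x

/-- the effect of a change of the potential at `x` in the resonance window -/
theorem window {V : Cfg d} {E : ℝ} {n K : ℕ} {a x : Site d} (hK : 1 ≤ K)
    (h1 : ‖GG V E n a‖ ≤ K) (h2 : ‖GG V E n x‖ ≤ K) (w : ℝ) (hw : |w - V x| ≤ 4 * (K : ℝ) ^ 2)
    (hb : 0 < ‖GG V E n a x‖)
    (h3 : ‖1 + ((w : ℂ) - V x) * GG V E n x x‖ ≤ ‖GG V E n a x‖)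
    (h4 : ‖GG V E n a x‖ ≤ 4 * ‖1 + ((w : ℂ) - V x) * GG V E n x x‖) :
    1 ≤ ‖GG (Function.update V x w) E n a x‖ ∧
      ‖GG (Function.update V x w) E n a‖ ≤ 17 * (K : ℝ) ^ 3 := by
  have hz : (zz (en n) E).im ≠ 0 := by rw [zz_im]; exact (en_pos n).ne'
  have hG := G_upd (V := V) hz x w (del a)
  set V' := Function.update V x w with hV'
  set ζ : ℂ := 1 + ((w : ℂ) - V x) * GG V E n x x with hζ
  have e1 : GG V E n a x = GG V' E n a x * ζ := by
    have h5 : GG V E n a x = (G V' (zz (en n) E) (del a) +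
        (((w : ℂ) - V x) * G V' (zz (en n) E) (del a) x) • G V (zz (en n) E) (del x)) x := by
      unfold GG
      rw [← hG]
    rw [h5, lp.coeFn_add, Pi.add_apply, lp.coeFn_smul, Pi.smul_apply, smul_eq_mul, hζ]
    unfold GG
    ring
  have hζ0 : 0 < ‖ζ‖ := by linarith
  have e2 : ‖GG V E n a x‖ = ‖GG V' E n a x‖ * ‖ζ‖ := by rw [e1, norm_mul]
  have h6 : 1 ≤ ‖GG V' E n a x‖ := by
    by_contra hcon
    push Not at hcon
    nlinarith
  have h7 : ‖GG V' E n a x‖ ≤ 4 := by
    by_contra hcon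
    push Not at hcon
    nlinarith
  refine ⟨h6, ?_⟩
  have e3 : GG V' E n a = GG V E n a - (((w : ℂ) - V x) * GG V' E n a x) • GG V E n x := by
    unfold GG
    rw [hG]
    abel
  have hK1 : (1 : ℝ) ≤ K := by exact_mod_cast hK
  have h8 : ‖((w : ℂ) - V x)‖ = |w - V x| := by
    rw [← Complex.ofReal_sub, Complex.norm_real, Real.norm_eq_abs]
  calc ‖GG V' E n a‖ ≤ ‖GG V E n a‖ + ‖(((w : ℂ) - V x) * GG V' E n a x) • GG V E n x‖ := by
        exact le_trans (le_of_eq (congrArg norm e3)) (norm_sub_le _ _)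
    _ = ‖GG V E n a‖ + |w - V x| * ‖GG V' E n a x‖ * ‖GG V E n x‖ := by
        rw [norm_smul, norm_mul, h8]
    _ ≤ K + 4 * (K : ℝ) ^ 2 * 4 * K := by gcongr
    _ ≤ 17 * (K : ℝ) ^ 3 := by
        have h9 : (K : ℝ) ≤ (K : ℝ) ^ 3 := by
          calc (K : ℝ) = K ^ 1 := (pow_one _).symm
            _ ≤ K ^ 3 := pow_le_pow_right₀ hK1 (by norm_num)
        nlinarith

theorem sta (hW : WinStmt) (hM : MeaStmt) : StaStmt := by
  intro d μ _ hLow a K hK
  obtain ⟨c, hc, hcl⟩ := hLow (5 * (K : ℝ) ^ 2)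
  have hK1 : (1 : ℝ) ≤ K := by exact_mod_cast hK
  have hfin : (KK d μ) Set.univ ≠ ∞ := by
    rw [← Set.univ_prod_univ, Measure.prod_prod, lam_univ, measure_univ, one_mul]
    exact ENNReal.ofReal_ne_top
  refine ⟨ENNReal.ofReal (4 * K / c) * (ENNReal.ofReal ((17 * (K : ℝ) ^ 3) ^ 2) *
    (KK d μ) Set.univ), ENNReal.mul_ne_top ENNReal.ofReal_ne_top
      (ENNReal.mul_ne_top ENNReal.ofReal_ne_top hfin), ?_⟩
  intro n
  set Q : Site d → Set (Cfg d × ℝ) := fun x =>
    {p | 1 ≤ ‖GG p.1 p.2 n a x‖ ∧ ‖GG p.1 p.2 n a‖ ≤ 17 * (K : ℝ) ^ 3} with hQdef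
  have hQ : ∀ x, MeasurableSet (Q x) := fun x =>
    (measurableSet_le measurable_const ((hM d).2.1 n a x).norm).inter
      (measurableSet_le ((hM d).1 n a) measurable_const)
  have hmeas : ∀ x, MeasurableSet (upd x ⁻¹' Q x) := fun x => (mp d μ x).measurable (hQ x)
  -- one site
  have key : ∀ x (p : Cfg d × ℝ), Cond K n a x p → ‖GG p.1 p.2 n a x‖ₑ ≤
      ENNReal.ofReal (4 * K / c) * μ (Prod.mk p ⁻¹' (upd x ⁻¹' Q x)) := by
    rintro x ⟨V, E⟩ ⟨h1, h2, h3, h4, h5⟩
    simp only at h1 h2 h3 h4 h5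
    have hz : (zz (en n) E).im ≠ 0 := by rw [zz_im]; exact (en_pos n).ne'
    have him : (GG V E n x x).im = en n * ‖GG V E n x‖ ^ 2 := by
      have := im_G_del' (V := V) hz x
      rw [zz_im] at this
      exact this
    have hb : 0 < ‖GG V E n a x‖ := by
      have := en_pos n
      have h6 : 0 < 8 * (K : ℝ) ^ 4 * en n := by positivity
      linarith
    obtain ⟨p, hp1, hp2⟩ := hW K (en n) (V x) (GG V E n x x) (GG V E n a x) hK1 (en_pos n)
      (by rw [him]; have := en_pos n; positivity)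
      (by
        rw [him]
        have := en_pos n
        gcongr)
      ((coord_le _ _).trans h2) h4 h5 ((coord_le _ _).trans h1) h3
    have hsub : Set.Icc p (p + ‖GG V E n a x‖ / (4 * K)) ⊆
        Prod.mk (V, E) ⁻¹' (upd x ⁻¹' Q x) := by
      intro w hw
      obtain ⟨h6, h7, h8⟩ := hp2 w hw
      exact window hK h1 h2 w h6 hb h7 h8
    have h9 := (hcl _ measurableSet_Icc hp1).trans (measure_mono hsub)
    rw [Real.volume_Icc, add_sub_cancel_left] at h9
    calc ‖GG V E n a x‖ₑ = ENNReal.ofReal ‖GG V E n a x‖ := (ofReal_norm _).symm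
      _ = ENNReal.ofReal (4 * K / c) *
          (ENNReal.ofReal c * ENNReal.ofReal (‖GG V E n a x‖ / (4 * K))) := by
          rw [← ENNReal.ofReal_mul hc.le, ← ENNReal.ofReal_mul (by positivity)]
          congr 1
          field_simp
      _ ≤ _ := by gcongr
  have hone : ∀ x, ∫⁻ p, Set.indicator {p : Cfg d × ℝ | Cond K n a x p}
      (fun p => ‖GG p.1 p.2 n a x‖ₑ) p ∂(KK d μ) ≤
      ENNReal.ofReal (4 * K / c) * (KK d μ) (Q x) := by
    intro x
    calc _ ≤ ∫⁻ p, ENNReal.ofReal (4 * K / c) * μ (Prod.mk p ⁻¹' (upd x ⁻¹' Q x)) ∂(KK d μ) := by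
          apply lintegral_mono
          intro p
          by_cases hp : Cond K n a x p
          · rw [Set.indicator_of_mem (by exact hp)]
            exact key x p hp
          · rw [Set.indicator_of_notMem (by exact hp)]
            exact zero_le
      _ = ENNReal.ofReal (4 * K / c) * ((KK d μ).prod μ) (upd x ⁻¹' Q x) := by
          rw [lintegral_const_mul _ (measurable_measure_prodMk_left (hmeas x)),
            Measure.prod_apply (hmeas x)]
      _ = _ := by
          rw [(mp d μ x).measure_preimage (hQ x).nullMeasurableSet]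
  -- the sum
  have hsum : ∑' x, (KK d μ) (Q x) ≤
      ENNReal.ofReal ((17 * (K : ℝ) ^ 3) ^ 2) * (KK d μ) Set.univ := by
    calc ∑' x, (KK d μ) (Q x) = ∑' x, ∫⁻ p, (Q x).indicator 1 p ∂(KK d μ) :=
          tsum_congr fun x => (lintegral_indicator_one (hQ x)).symm
      _ = ∫⁻ p, ∑' x, (Q x).indicator 1 p ∂(KK d μ) :=
          (lintegral_tsum fun x => (measurable_one.indicator (hQ x)).aemeasurable).symm
      _ ≤ ∫⁻ _, ENNReal.ofReal ((17 * (K : ℝ) ^ 3) ^ 2) ∂(KK d μ) := by
          apply lintegral_mono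
          intro p
          by_cases hp : ‖GG p.1 p.2 n a‖ ≤ 17 * (K : ℝ) ^ 3
          · calc ∑' x, (Q x).indicator 1 p ≤ ∑' x, ‖GG p.1 p.2 n a x‖ₑ ^ 2 := by
                  apply ENNReal.tsum_le_tsum
                  intro x
                  by_cases hx : p ∈ Q x
                  · rw [Set.indicator_of_mem hx]
                    have h1 : (1 : ℝ≥0∞) ≤ ‖GG p.1 p.2 n a x‖ₑ := by
                      rw [← ofReal_norm]
                      exact ENNReal.one_le_ofReal.2 hx.1
                    exact one_le_pow₀ h1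
                  · rw [Set.indicator_of_notMem hx]
                    exact zero_le
              _ = ‖GG p.1 p.2 n a‖ₑ ^ 2 := (Tr.enorm_sq_tsum _).symm
              _ = ENNReal.ofReal (‖GG p.1 p.2 n a‖ ^ 2) := by
                  rw [ENNReal.ofReal_pow (norm_nonneg _), ofReal_norm]
              _ ≤ _ := by
                  apply ENNReal.ofReal_le_ofReal
                  exact pow_le_pow_left₀ (norm_nonneg _) hp 2
          · calc ∑' x, (Q x).indicator 1 p = ∑' _ : Site d, (0 : ℝ≥0∞) := by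
                  apply tsum_congr
                  intro x
                  exact Set.indicator_of_notMem (fun hx => hp hx.2) _
              _ = 0 := tsum_zero
              _ ≤ _ := zero_le
      _ = _ := by rw [lintegral_const]
  calc ∑' x, ∫⁻ p, Set.indicator {p : Cfg d × ℝ | Cond K n a x p}
        (fun p => ‖GG p.1 p.2 n a x‖ₑ) p ∂(KK d μ)
      ≤ ∑' x, ENNReal.ofReal (4 * K / c) * (KK d μ) (Q x) := ENNReal.tsum_le_tsum hone
    _ = ENNReal.ofReal (4 * K / c) * ∑' x, (KK d μ) (Q x) := ENNReal.tsum_mul_left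
    _ ≤ _ := by gcongr

end Pool.Agent.RES.H31
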